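import Pool.Agent.helper52.WP.SpecB
import Pool.Agent.helper92.MP.MI

/-!
# Project wp: (MP_af9036_an), module ERD (helper41): the energy of the error of the datum
-/

set_option autoImplicit false

open Complex Metric Set Filter Topology MeasureTheory
open V3S (UF)
open WP
open PPS (pre TT fd)
open XPS (Df er)
open Pool.Agent.helper16.Multibrot

noncomputable section

namespace WPB

theorem ERD_TT_add (f : Polynomial ℂ) (q r : ℂ → ℂ) (z : ℂ) :
    TT f (fun x => q x + r x) z = TT f q z + TT f r z := by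
  unfold TT
  rw [← Multiset.sum_map_add]
  congr 1
  apply Multiset.map_congr rfl
  intro y _
  rw [add_div]

theorem ERD_TT_mul (f : Polynomial ℂ) (a : ℂ) (q : ℂ → ℂ) (z : ℂ) :
    TT f (fun x => a * q x) z = a * TT f q z := by
  unfold TT
  rw [← Multiset.sum_map_mul_left]
  congr 1
  apply Multiset.map_congr rfl
  intro y _
  rw [mul_div_assoc]

theorem ERD_TT_lin (f : Polynomial ℂ) (s : ℂ) (γ : Fin 3 → ℂ) (φ : Fin 3 → ℂ → ℂ) (z : ℂ) :
    TT f (fun x => s * ∑ i : Fin 3, γ i * φ i x) z = s * ∑ i : Fin 3, γ i * TT f (φ i) z := by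
  rw [ERD_TT_mul]
  congr 1
  simp only [Fin.sum_univ_three]
  rw [ERD_TT_add, ERD_TT_add, ERD_TT_mul, ERD_TT_mul, ERD_TT_mul]

/-- the scaling of the integral. -/
theorem ERD_scale (w : ℂ) (ρ : ℝ) (hρ : 0 < ρ) (G : ℂ → ENNReal) (hG : Measurable G) :
    ∫⁻ z : ℂ, G ((z - w) / (ρ : ℂ)) = ENNReal.ofReal (ρ ^ 2) * ∫⁻ z : ℂ, G z := by
  have h1 : ∫⁻ z : ℂ, G ((z - w) / (ρ : ℂ)) = ∫⁻ z : ℂ, G (z / (ρ : ℂ)) :=
    lintegral_sub_right_eq_self (fun z => G (z / (ρ : ℂ))) w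
  rw [h1]
  have hr : (ρ⁻¹ : ℝ) ≠ 0 := (inv_pos.mpr hρ).ne'
  have h2 : ∫⁻ z : ℂ, G (z / (ρ : ℂ)) = ∫⁻ z : ℂ, G ((ρ⁻¹ : ℝ) • z) := by
    refine lintegral_congr fun z => ?_
    congr 1
    rw [Complex.real_smul, Complex.ofReal_inv, div_eq_inv_mul]
  rw [h2]
  have h3 : ∫⁻ z : ℂ, G ((ρ⁻¹ : ℝ) • z) = ∫⁻ z : ℂ, G z ∂(Measure.map ((ρ⁻¹ : ℝ) • ·) (volume : Measure ℂ)) := by
    rw [lintegral_map hG (measurable_const_smul _)]
  rw [h3, Measure.map_addHaar_smul _ hr, lintegral_smul_measure, Complex.finrank_real_complex]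
  congr 2
  rw [abs_of_pos (by positivity)]
  field_simp

theorem ERD_pole (c : ℂ) (hc : ‖c‖ ≤ 2) (K R : ℝ) (hK : 0 ≤ K) (hR : 1 ≤ R) :
    ∫⁻ z in ball (0 : ℂ) R, ENNReal.ofReal (K * (1 / ‖z - c‖)) ≤ ENNReal.ofReal (K * (20 * R)) := by
  have hs : ball (0 : ℂ) R ⊆ ball c (R + 2) := by
    refine ball_subset_ball' ?_
    rw [dist_eq_norm, zero_sub, norm_neg]
    linarith
  have h1 := (MPS.MI.2 c (R + 2) (by linarith))
  have hint : IntegrableOn (fun z : ℂ => K * (1 / ‖z - c‖)) (ball c (R + 2)) := h1.1.const_mul _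
  calc ∫⁻ z in ball (0 : ℂ) R, ENNReal.ofReal (K * (1 / ‖z - c‖))
      ≤ ∫⁻ z in ball c (R + 2), ENNReal.ofReal (K * (1 / ‖z - c‖)) := lintegral_mono_set hs
    _ = ENNReal.ofReal (∫ z in ball c (R + 2), K * (1 / ‖z - c‖)) := by
        rw [ofReal_integral_eq_lintegral_ofReal hint]
        exact Filter.Eventually.of_forall fun z => by positivity
    _ ≤ ENNReal.ofReal (K * (20 * R)) := by
        apply ENNReal.ofReal_le_ofReal
        rw [integral_const_mul, h1.2]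
        apply mul_le_mul_of_nonneg_left _ hK
        have := Real.pi_lt_d2
        nlinarith [Real.pi_pos]

theorem ERD (hERS : ERS_stmt) (hSBD : SBD_stmt) (hINQ : INQ_stmt) (hHFI : HFI_stmt)
    (hCB1 : WPC.CB1_stmt) : ERD_stmt := by
  obtain ⟨C0, hC0, hN⟩ := hINQ
  refine ⟨8 * C0 + 6000, by positivity, ?_⟩
  intro n c ε M R D v hP hM hR hCR hv
  obtain ⟨hsg, -, -, hzx, -, -, -, -, hder, hzF, -, -, -, -, -, -⟩ := hCB1 D hP.rho
  have hform := (hHFI D hP.rho).1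
  have hf := hP.hf
  have hε := hP.e0
  have hε1 := hP.e1
  have hρ := hP.rho
  have hlog : 0 ≤ Real.log (1 / ε) := Real.log_nonneg (by rw [le_div_iff₀ hε]; linarith)
  set F : ℂ → ℂ := D.F D.k with hF
  set β : Fin 3 → ℂ := fun i => 1 / deriv F (D.a i) with hβ
  set b : Fin 3 → ℂ := fun i => F (D.a i) with hb
  set S : ℂ := ∑ i, D.γ i * ∑ j ∈ Finset.Icc 1 D.k, 1 / deriv (it (GR.fp n c) j) (D.zz (D.a i)) with hS
  set N : ℂ → ℂ := fun x => ∑ i : Fin 3, D.γ i * (1 / (x - D.a i) - β i / (x - b i)) with hNdef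
  -- the first part
  have hba : ∀ i, ‖b i - D.a i‖ ≤ ε := by
    intro i
    apply hP.near
    rw [mem_ball_zero_iff]
    linarith [hP.pt i]
  have hNint : ∫⁻ x : ℂ, ENNReal.ofReal ‖N x‖ ≤ ENNReal.ofReal (C0 * (8 * ε) * (1 + Real.log (1 / (8 * ε)))) := by
    apply hN (8 * ε) D.a b β D.γ (by positivity) (by linarith) hP.gam hP.pt
    · intro i
      linarith [hba i]
    · intro i
      exact (hP.der i).2
    · exact hP.l1
    · exact hP.l2
  -- the second part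
  have hSb := hSBD n c ε M D v hP hM hCR hv
  rw [← hS] at hSb
  -- the pointwise formula
  have hfin : ({c} ∪ ⋃ i : Fin 3, ((fun j => it (GR.fp n c) j (D.zz (D.a i))) '' (Finset.range (D.k + 1) : Set ℕ)) : Set ℂ).Finite := by
    refine (finite_singleton c).union (finite_iUnion fun i => ?_)
    exact (Finset.finite_toSet _).image _
  have hpt : ∀ z : ℂ, z ∉ ({c} ∪ ⋃ i : Fin 3, ((fun j => it (GR.fp n c) j (D.zz (D.a i))) '' (Finset.range (D.k + 1) : Set ℕ)) : Set ℂ) →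
      er D.f D.H0 z = (1 / (D.sg ^ 2)) * N ((z - D.w) / (D.ρ : ℂ)) + (1 / D.sg) * (S / (z - c)) := by
    intro z hz
    have hz1 : z ≠ c := by
      intro h
      exact hz (Or.inl h)
    have hz2 : ∀ (i : Fin 3), ∀ j ≤ D.k, z ≠ it (GR.fp n c) j (D.zz (D.a i)) := by
      intro i j hj h
      apply hz
      right
      rw [mem_iUnion]
      exact ⟨i, j, by simpa using Nat.lt_succ_of_le hj, h.symm⟩
    have hH0 : D.H0 = fun z => (1 / D.sg) * ∑ i : Fin 3, D.γ i * (fun (i : Fin 3) (x : ℂ) => ∑ j ∈ Finset.range D.k,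
      1 / deriv (it (GR.fp n c) j) (D.zz (D.a i)) / (x - it (GR.fp n c) j (D.zz (D.a i)))) i z := by
      funext z
      rw [hform z, hf]
    unfold er
    rw [hH0, hf, ERD_TT_lin, ← mul_sub, ← Finset.sum_sub_distrib]
    have hdk : ∀ i, deriv (it (GR.fp n c) D.k) (D.zz (D.a i)) = deriv F (D.a i) := by
      intro i
      rw [hF, hder, hf]
    have hik : ∀ i, it (GR.fp n c) D.k (D.zz (D.a i)) = D.zz (b i) := by
      intro i
      rw [hb, ← hf, ← hzF]
    have hi : ∀ i : Fin 3, D.γ i * (∑ j ∈ Finset.range D.k,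
        1 / deriv (it (GR.fp n c) j) (D.zz (D.a i)) / (z - it (GR.fp n c) j (D.zz (D.a i)))) -
        D.γ i * TT (GR.fp n c) (fun x => ∑ j ∈ Finset.range D.k,
        1 / deriv (it (GR.fp n c) j) (D.zz (D.a i)) / (x - it (GR.fp n c) j (D.zz (D.a i)))) z =
        (1 / D.sg) * (D.γ i * (1 / ((z - D.w) / (D.ρ : ℂ) - D.a i) - β i / ((z - D.w) / (D.ρ : ℂ) - b i))) +
        D.γ i * (∑ j ∈ Finset.Icc 1 D.k, 1 / deriv (it (GR.fp n c) j) (D.zz (D.a i))) / (z - c) := by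
      intro i
      have h1 := hERS n c D.k (D.zz (D.a i)) hP.hn (by rw [hdk]; exact (hP.der i).1) z hz1 (hz2 i)
      rw [← mul_sub, h1, hdk, hik]
      have h2 : ∀ y : ℂ, z - D.zz y = D.sg * ((z - D.w) / (D.ρ : ℂ) - y) := by
        intro y
        have hρ' : (D.ρ : ℂ) ≠ 0 := hsg
        unfold Dat.zz Dat.sg
        field_simp
        ring
      rw [h2, h2]
      have h3 : ∀ A B : ℂ, A / (D.sg * B) = (1 / D.sg) * (A / B) := by
        intro A B
        rw [div_mul_div_comm, one_mul]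
      rw [h3, h3]
      simp only [hβ]
      ring
    simp only
    rw [Finset.sum_congr rfl (fun i _ => hi i), Finset.sum_add_distrib, ← Finset.mul_sum, ← Finset.sum_div, ← hS]
    simp only [hNdef]
    field_simp
  have hae : ∀ᵐ z ∂(volume.restrict (ball (0 : ℂ) R)), er D.f D.H0 z =
      (1 / (D.sg ^ 2)) * N ((z - D.w) / (D.ρ : ℂ)) + (1 / D.sg) * (S / (z - c)) := by
    apply ae_restrict_of_ae
    have h0 : volume ({c} ∪ ⋃ i : Fin 3, ((fun j => it (GR.fp n c) j (D.zz (D.a i))) '' (Finset.range (D.k + 1) : Set ℕ)) : Set ℂ) = 0 :=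
      hfin.measure_zero _
    filter_upwards [measure_eq_zero_iff_ae_notMem.1 h0] with z hz using hpt z hz
  have hNm : Measurable N := by
    simp only [hNdef]
    refine Finset.measurable_fun_sum _ fun i _ => ?_
    fun_prop
  have hsgn : ‖D.sg‖ = D.ρ := by
    unfold Dat.sg
    rw [Complex.norm_real, Real.norm_of_nonneg hρ.le]
  have hstep : ∫⁻ z in ball (0 : ℂ) R, ENNReal.ofReal ‖er D.f D.H0 z‖ ≤
      (∫⁻ z : ℂ, ENNReal.ofReal (1 / D.ρ ^ 2) * ENNReal.ofReal ‖N ((z - D.w) / (D.ρ : ℂ))‖) +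
      ∫⁻ z in ball (0 : ℂ) R, ENNReal.ofReal ((‖S‖ / D.ρ) * (1 / ‖z - c‖)) := by
    calc ∫⁻ z in ball (0 : ℂ) R, ENNReal.ofReal ‖er D.f D.H0 z‖
        ≤ ∫⁻ z in ball (0 : ℂ) R, (ENNReal.ofReal (1 / D.ρ ^ 2) * ENNReal.ofReal ‖N ((z - D.w) / (D.ρ : ℂ))‖ +
            ENNReal.ofReal ((‖S‖ / D.ρ) * (1 / ‖z - c‖))) := by
          apply lintegral_mono_ae
          filter_upwards [hae] with z hz
          rw [hz, ← ENNReal.ofReal_mul (by positivity), ← ENNReal.ofReal_add (by positivity) (by positivity)]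
          apply ENNReal.ofReal_le_ofReal
          refine (norm_add_le _ _).trans (le_of_eq ?_)
          rw [norm_mul, norm_mul, norm_div, norm_div, norm_div, norm_pow, hsgn, norm_one]
          congr 1
          rw [div_mul_div_comm, one_mul, div_mul_div_comm, mul_one]
      _ = (∫⁻ z in ball (0 : ℂ) R, ENNReal.ofReal (1 / D.ρ ^ 2) * ENNReal.ofReal ‖N ((z - D.w) / (D.ρ : ℂ))‖) +
            ∫⁻ z in ball (0 : ℂ) R, ENNReal.ofReal ((‖S‖ / D.ρ) * (1 / ‖z - c‖)) := by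
          apply lintegral_add_left
          exact ((hNm.comp ((measurable_id.sub_const _).div_const _)).norm.ennreal_ofReal).const_mul _
      _ ≤ _ := by
          gcongr
          exact Measure.restrict_le_self
  have h1 : (∫⁻ z : ℂ, ENNReal.ofReal (1 / D.ρ ^ 2) * ENNReal.ofReal ‖N ((z - D.w) / (D.ρ : ℂ))‖) ≤
      ENNReal.ofReal (C0 * (8 * ε) * (1 + Real.log (1 / (8 * ε)))) := by
    have hG : Measurable (fun x : ℂ => ENNReal.ofReal ‖N x‖) := hNm.norm.ennreal_ofReal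
    rw [lintegral_const_mul' _ _ ENNReal.ofReal_ne_top,
      ERD_scale D.w D.ρ hρ (fun x => ENNReal.ofReal ‖N x‖) hG, ← mul_assoc, ← ENNReal.ofReal_mul (by positivity)]
    have : 1 / D.ρ ^ 2 * D.ρ ^ 2 = 1 := by field_simp
    rw [this, ENNReal.ofReal_one, one_mul]
    exact hNint
  have h2 := ERD_pole c hP.hc (‖S‖ / D.ρ) R (by positivity) hR
  have hSr : ‖S‖ / D.ρ ≤ 300 * M * ε * (1 + Real.log (1 / ε)) := by
    rw [div_le_iff₀ hρ]
    calc ‖S‖ ≤ 300 * M * D.ρ * ε * (1 + Real.log (1 / ε)) := hSb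
      _ = 300 * M * ε * (1 + Real.log (1 / ε)) * D.ρ := by ring
  have hlog8 : Real.log (1 / (8 * ε)) ≤ Real.log (1 / ε) := by
    apply Real.log_le_log (by positivity)
    apply one_div_le_one_div_of_le hε
    linarith
  have hlog80 : 0 ≤ 1 + Real.log (1 / (8 * ε)) := by
    have : 0 ≤ Real.log (1 / (8 * ε)) := Real.log_nonneg (by rw [le_div_iff₀ (by positivity)]; linarith)
    linarith
  refine hstep.trans ((add_le_add h1 h2).trans ?_)
  rw [← ENNReal.ofReal_add (by positivity) (by positivity)]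
  apply ENNReal.ofReal_le_ofReal
  have e1 : C0 * (8 * ε) * (1 + Real.log (1 / (8 * ε))) ≤ 8 * C0 * (ε * (1 + Real.log (1 / ε))) := by
    have : C0 * (8 * ε) * (1 + Real.log (1 / (8 * ε))) ≤ C0 * (8 * ε) * (1 + Real.log (1 / ε)) := by
      apply mul_le_mul_of_nonneg_left _ (by positivity)
      linarith
    linarith
  have e2 : ‖S‖ / D.ρ * (20 * R) ≤ 300 * M * ε * (1 + Real.log (1 / ε)) * (20 * R) :=
    mul_le_mul_of_nonneg_right hSr (by linarith)
  have e3 : 0 ≤ ε * (1 + Real.log (1 / ε)) := by positivity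
  have e4 : 0 ≤ M * R := by positivity
  have e5 : 0 ≤ C0 * (ε * (1 + Real.log (1 / ε))) * (M * R) := by positivity
  have e6 : 0 ≤ (ε * (1 + Real.log (1 / ε))) * (M * R) := by positivity
  nlinarith [e1, e2, e3, e4, e5, e6]

end WPB
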